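import Pool.Agent.H269.MEP.Final

/-!
# Computing the Morse ensemble polynomial is #P-hard

Every function of `#P` is computed in polynomial time with an oracle for the Morse ensemble
polynomial of simplicial complexes of dimension at most two (polynomial-time Turing reductions).

The reduction is from the permanent of 0-1 matrices: for a square 0-1 matrix `A` with `n` rows, the
complex `KK A` has the value `ME (1, -1, 1) = ± 2 ^ n * per A`.
-/

set_option autoImplicit false

namespace Pool.Agent.Results.MP_8e5830_lc.SharpPHardness

open Pool.Agent.NPC.Cnt Pool.Agent.H269.MEP

theorem result : SharpPHard (strFn answer) := Pool.Agent.NPC.ME269.hard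

end Pool.Agent.Results.MP_8e5830_lc.SharpPHardness
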